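import Mathlib
import Pool.Agent.X2.HertzWord

/-!
# Wilf classes of Hertzsprung patterns and palindromic prefix sets

We prove `a k = b (k + 1)` for every `k ≥ 3`.

Sketch. For `σ ∈ S_k` let `E σ` be the set of all `d ∈ [1, k - 1]` such that `σ (j + d) - σ j` is
constantly `d` or constantly `- d`.  By inclusion-exclusion `σ` and `τ` are Wilf equivalent iff
`E σ = E τ`.  The partial sums of `σ (j) - j` form a word of length `k + 1` with equal first and last
letter, whose periods are the elements of `E σ` (after passing to the complement if needed), and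
every such word has the same set of periods as some binary palindrome.  Conversely the binary
palindrome `w` of length `k + 1` starting with `0` yields the permutation which rotates the blocks
between consecutive zeros.  Finally the palindromic prefixes of a palindrome correspond to its periods.
-/

namespace Pool.Agent.Results.MP_7acacd_co.Equality

open Pool.Agent.X2.HPal Pool.Agent.X2.Hertz

/-- The permutation `σ` of `{0, …, k-1}`, viewed as a Hertzsprung pattern, occurs in the permutation
`π` of `{0, …, n-1}`: there are `i ≥ 0` and `d ∈ ℤ` with `π (i + j) = σ (j) + d` for all `j`. -/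
def OccursIn {k n : ℕ} (σ : Equiv.Perm (Fin k)) (π : Equiv.Perm (Fin n)) : Prop :=
  ∃ (i : ℕ) (d : ℤ), ∀ j : Fin k, ∃ h : i + j < n, ((π ⟨i + j, h⟩ : ℕ) : ℤ) = ((σ j : ℕ) : ℤ) + d

/-- The number of permutations of length `n` avoiding the Hertzsprung pattern `σ`. -/
noncomputable def avoidCount {k : ℕ} (σ : Equiv.Perm (Fin k)) (n : ℕ) : ℕ :=
  Nat.card {π : Equiv.Perm (Fin n) // ¬ OccursIn σ π}

/-- Wilf equivalence of Hertzsprung patterns of length `k`. -/
def wilf (k : ℕ) : Setoid (Equiv.Perm (Fin k)) where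
  r σ τ := ∀ n : ℕ, avoidCount σ n = avoidCount τ n
  iseqv := ⟨fun _ _ => rfl, fun h n => (h n).symm, fun h h' n => (h n).trans (h' n)⟩

/-- `a k` is the number of Wilf classes of Hertzsprung patterns of length `k`. -/
noncomputable def a (k : ℕ) : ℕ := Nat.card (Quotient (wilf k))

/-- The set of all lengths of (nonempty) palindromic prefixes of the word `w`. -/
def palPrefixes (w : List Bool) : Set ℕ :=
  {i | 1 ≤ i ∧ i ≤ w.length ∧ (w.take i).reverse = w.take i}

/-- `b k` is the number of sets `palPrefixes w`, where `w` ranges over the binary palindromes of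
length `k`. -/
noncomputable def b (k : ℕ) : ℕ :=
  {P : Set ℕ | ∃ w : List Bool, w.length = k ∧ w.reverse = w ∧ P = palPrefixes w}.ncard

lemma wilf_eq {k : ℕ} (hk : 1 ≤ k) :
    wilf k = Setoid.ker (fun σ : Equiv.Perm (Fin k) => E σ) := by
  ext σ τ
  change (∀ n : ℕ, avoidCount σ n = avoidCount τ n) ↔ E σ = E τ
  rw [← avoid_iff hk]
  exact ⟨fun h => funext h, fun h n => congrFun h n⟩

lemma a_eq {k : ℕ} (hk : 1 ≤ k) :
    a k = (Set.range fun σ : Equiv.Perm (Fin k) => E σ).ncard := by
  unfold a
  rw [wilf_eq hk, ← Nat.card_coe_set_eq]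
  exact Nat.card_congr (Setoid.quotientKerEquivRange _)

lemma take_pal (w : List Bool) (i : ℕ) (hi : i ≤ w.length) : (w.take i).reverse = w.take i ↔
    ∀ j, j < i → w.getD j false = w.getD (i - 1 - j) false := by
  have hlen : (w.take i).length = i := by rw [List.length_take]; omega
  have hget : ∀ j, (hj : j < (w.take i).length) → (w.take i)[j] = w.getD j false := by
    intro j hj
    rw [List.getElem_take, List.getD_eq_getElem]
  constructor
  · intro h j hj
    have h1 : (w.take i).reverse[j]'(by rw [List.length_reverse]; omega) =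
        (w.take i)[j]'(by omega) := by
      congr 1
    rw [List.getElem_reverse, hget, hget, hlen] at h1
    exact h1.symm
  · intro h
    apply List.ext_getElem
    · rw [List.length_reverse]
    · intro j h1 h2
      rw [List.getElem_reverse, hget, hget, hlen]
      exact (h j (by omega)).symm

lemma mem_pal {k : ℕ} (w : List Bool) (hw : w.length = k + 1) (hpal : w.reverse = w) (i : ℕ) :
    i ∈ palPrefixes w ↔ 1 ≤ i ∧ i ≤ k + 1 ∧ Per (fun j => w.getD j false) (k + 1) (k + 1 - i) := by
  have h0 : ∀ j, j < k + 1 → w.getD j false = w.getD (k - j) false := by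
    have h1 := (take_pal w (k + 1) (by omega)).1 (by rw [← hw, List.take_length]; exact hpal)
    intro j hj
    rw [h1 j hj]
    congr 1
  change (1 ≤ i ∧ i ≤ w.length ∧ (w.take i).reverse = w.take i) ↔ _
  constructor
  · rintro ⟨h1, h2, h3⟩
    refine ⟨h1, by omega, fun x hx => ?_⟩
    rw [take_pal w i h2] at h3
    change w.getD x false = w.getD (x + (k + 1 - i)) false
    rw [h3 x (by omega), h0 (i - 1 - x) (by omega)]
    congr 1
    omega
  · rintro ⟨h1, h2, h3⟩
    refine ⟨h1, by omega, ?_⟩
    rw [take_pal w i (by omega)]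
    intro j hj
    have h4 : w.getD j false = w.getD (j + (k + 1 - i)) false := h3 j (by omega)
    rw [h4, h0 _ (by omega)]
    congr 1
    omega

/-- From palindromic prefixes to periods. -/
def psi (k : ℕ) (P : Set ℕ) : Set ℕ := {d | 1 ≤ d ∧ d < k ∧ k + 1 - d ∈ P}

lemma pal_sub {k : ℕ} {w w' : List Bool} (hw : w.length = k + 1) (hpal : w.reverse = w)
    (hw' : w'.length = k + 1) (hpal' : w'.reverse = w')
    (h : psi k (palPrefixes w) = psi k (palPrefixes w')) (i : ℕ) (hi : i ∈ palPrefixes w) :
    i ∈ palPrefixes w' := by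
  have h1 := (mem_pal w hw hpal i).1 hi
  rcases Nat.lt_or_ge 1 i with h2 | h2
  · rcases Nat.lt_or_ge i (k + 1) with h3 | h3
    · have h4 : k + 1 - i ∈ psi k (palPrefixes w) :=
        ⟨by omega, by omega, by rw [show k + 1 - (k + 1 - i) = i by omega]; exact hi⟩
      rw [h] at h4
      have h5 := h4.2.2
      rw [show k + 1 - (k + 1 - i) = i by omega] at h5
      exact h5
    · have h4 : i = k + 1 := by omega
      rw [mem_pal w' hw' hpal', h4]
      refine ⟨by omega, le_rfl, fun x hx => ?_⟩
      rw [Nat.sub_self, Nat.add_zero]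
  · have h4 : i = 1 := by omega
    rw [h4]
    refine ⟨le_rfl, by omega, ?_⟩
    rw [take_pal w' 1 (by omega)]
    intro j hj
    congr 1
    omega

lemma word_of_fun {k : ℕ} (w : ℕ → Bool) (hw : ∀ i, i ≤ k → w i = w (k - i)) :
    ∃ l : List Bool, l.length = k + 1 ∧ l.reverse = l ∧ ∀ j, j < k + 1 → l.getD j false = w j := by
  have hlen : ((List.range (k + 1)).map w).length = k + 1 := by
    rw [List.length_map, List.length_range]
  have hget : ∀ j, j < k + 1 → ((List.range (k + 1)).map w).getD j false = w j := by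
    intro j hj
    rw [List.getD_eq_getElem _ _ (by omega), List.getElem_map, List.getElem_range]
  refine ⟨(List.range (k + 1)).map w, hlen, ?_, hget⟩
  have h1 : (((List.range (k + 1)).map w).take (k + 1)).reverse =
      ((List.range (k + 1)).map w).take (k + 1) := by
    rw [take_pal _ _ (by omega)]
    intro j hj
    rw [hget j hj, hget _ (by omega), hw j (by omega)]
    congr 1
  rw [List.take_of_length_le (by omega)] at h1
  exact h1

lemma per_congr {f g : ℕ → Bool} {n d : ℕ} (h : ∀ j, j < n → f j = g j) :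
    Per f n d ↔ Per g n d := by
  constructor
  · intro hp x hx
    rw [← h x (by omega), ← h (x + d) hx]
    exact hp x hx
  · intro hp x hx
    rw [h x (by omega), h (x + d) hx]
    exact hp x hx

/-- **Main theorem.** `a k = b (k + 1)` for every `k ≥ 3`. -/
theorem result : ∀ k : ℕ, 3 ≤ k → a k = b (k + 1) := by
  intro k hk
  rw [a_eq (by omega)]
  unfold b
  set B : Set (Set ℕ) := {P : Set ℕ | ∃ w : List Bool, w.length = k + 1 ∧ w.reverse = w ∧
    P = palPrefixes w} with hB
  have hinj : Set.InjOn (psi k) B := by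
    rintro P ⟨w, hw, hpal, rfl⟩ P' ⟨w', hw', hpal', rfl⟩ h
    ext i
    exact ⟨pal_sub hw hpal hw' hpal' h i, pal_sub hw' hpal' hw hpal h.symm i⟩
  rw [← hinj.ncard_image]
  congr 1
  ext X
  constructor
  · rintro ⟨σ, rfl⟩
    obtain ⟨w, hw1, hw2⟩ := E_to_word σ
    obtain ⟨l, hl1, hl2, hl3⟩ := word_of_fun w hw1
    refine ⟨palPrefixes l, ⟨l, hl1, hl2, rfl⟩, ?_⟩
    ext d
    constructor
    · rintro ⟨h1, h2, h3⟩
      rw [mem_pal l hl1 hl2, show k + 1 - (k + 1 - d) = d by omega, per_congr hl3] at h3
      exact (hw2 d h1 h2).1 h3.2.2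
    · intro hd
      have hd1 : 1 ≤ d ∧ d < k := by
        rcases hd with h | h
        · exact ⟨h.1, h.2.1⟩
        · exact ⟨h.1, h.2.1⟩
      refine ⟨hd1.1, hd1.2, ?_⟩
      rw [mem_pal l hl1 hl2, show k + 1 - (k + 1 - d) = d by omega, per_congr hl3]
      exact ⟨by omega, by omega, (hw2 d hd1.1 hd1.2).2 hd⟩
  · rintro ⟨P, ⟨l, hl1, hl2, rfl⟩, rfl⟩
    have hpal : ∀ i, i ≤ k → l.getD i false = l.getD (k - i) false := by
      have h1 := (take_pal l (k + 1) (by omega)).1 (by rw [← hl1, List.take_length]; exact hl2)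
      intro j hj
      rw [h1 j (by omega)]
      congr 1
    obtain ⟨σ, hσ⟩ := word_to_E hk (fun j => l.getD j false) hpal
    refine ⟨σ, ?_⟩
    ext d
    constructor
    · intro hd
      have hd1 : 1 ≤ d ∧ d < k := by
        rcases hd with h | h
        · exact ⟨h.1, h.2.1⟩
        · exact ⟨h.1, h.2.1⟩
      refine ⟨hd1.1, hd1.2, ?_⟩
      rw [mem_pal l hl1 hl2, show k + 1 - (k + 1 - d) = d by omega]
      exact ⟨by omega, by omega, (hσ d hd1.1 hd1.2).2 hd⟩
    · rintro ⟨h1, h2, h3⟩
      rw [mem_pal l hl1 hl2, show k + 1 - (k + 1 - d) = d by omega] at h3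
      exact (hσ d h1 h2).1 h3.2.2

end Pool.Agent.Results.MP_7acacd_co.Equality
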